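import Mathlib

set_option autoImplicit false

/-!
Pure simplicial forests have the strong Lefschetz property in characteristic zero.

Order the facets so that each of them meets the preceding ones in one face (remove leaves). The new
faces contributed by the facet `F` are the subsets of `F` not contained in a face `G` of `F`. On them
multiplication by `(x_1 + … + x_n)^j` from degree `i` is injective for `2 i + j ≤ d` and surjective
for `2 i + j ≥ d + 1`, `d = |F|`, by the Lefschetz property of Boolean lattices. Since `d` is the same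
for all facets, the same holds for the whole algebra.
-/

namespace Pool.Agent.Results.MP_cb4cd2_al.PureForests

open Finset MvPolynomial

/-! ### Definitions of the problem -/

section Defs

variable {n : ℕ}

/-- The faces of the simplicial complex with facets `Fs`. -/
def IsFace (Fs : Finset (Finset (Fin n))) (σ : Finset (Fin n)) : Prop := ∃ F ∈ Fs, σ ⊆ F

/-- `Fs` is the set of facets of a simplicial complex: no facet contains another one. -/
def IsFacetSet (Fs : Finset (Finset (Fin n))) : Prop := ∀ F ∈ Fs, ∀ G ∈ Fs, F ⊆ G → F = G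

/-- All facets have the same dimension. -/
def IsPure (Fs : Finset (Finset (Fin n))) : Prop := ∀ F ∈ Fs, ∀ G ∈ Fs, F.card = G.card

/-- The facet `F` is a leaf. -/
def IsLeaf (Fs : Finset (Finset (Fin n))) (F : Finset (Fin n)) : Prop :=
  F ∈ Fs ∧ (Fs = {F} ∨ ∃ G ∈ Fs, G ≠ F ∧ ∀ F' ∈ Fs, F' ≠ F → F ∩ F' ⊆ F ∩ G)

/-- The facets `F` and `G` are joined by a chain of facets, consecutive ones having a common
vertex. -/
def Joined (Fs : Finset (Finset (Fin n))) (F G : Finset (Fin n)) : Prop :=
  Relation.ReflTransGen (fun A B => A ∈ Fs ∧ B ∈ Fs ∧ (A ∩ B).Nonempty) F G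

/-- The complex with facets `Fs` is a simplicial tree: it is connected and every nonempty set of
facets has a leaf. -/
def IsTree (Fs : Finset (Finset (Fin n))) : Prop :=
  (∀ F ∈ Fs, ∀ G ∈ Fs, Joined Fs F G) ∧ ∀ Ss, Ss ⊆ Fs → Ss.Nonempty → ∃ F, IsLeaf Ss F

open Classical in
/-- The facets of the connected component of the facet `F`. -/
noncomputable def component (Fs : Finset (Finset (Fin n))) (F : Finset (Fin n)) :
    Finset (Finset (Fin n)) := Fs.filter fun G => Joined Fs F G

/-- The complex with facets `Fs` is a simplicial forest: its connected components are trees. -/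
def IsForest (Fs : Finset (Finset (Fin n))) : Prop := ∀ F ∈ Fs, IsTree (component Fs F)

/-- The ideal `N(Δ) + (x_1^2, …, x_n^2)`. -/
noncomputable def theIdeal (K : Type*) [Field K] (Fs : Finset (Finset (Fin n))) :
    Ideal (MvPolynomial (Fin n) K) :=
  Ideal.span ({f | ∃ σ : Finset (Fin n), ¬ IsFace Fs σ ∧ f = ∏ v ∈ σ, X v} ∪
    {f | ∃ v : Fin n, f = X v ^ 2})

/-- Multiplication by `L ^ j` from the degree `i` part to the degree `i + j` part of
`K[x_1, …, x_n]/I` has full rank. -/
def FullRank {K : Type*} [Field K] (I : Ideal (MvPolynomial (Fin n) K))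
    (L : MvPolynomial (Fin n) K) (i j : ℕ) : Prop :=
  (∀ f : MvPolynomial (Fin n) K, f.IsHomogeneous i → L ^ j * f ∈ I → f ∈ I) ∨
  (∀ g : MvPolynomial (Fin n) K, g.IsHomogeneous (i + j) →
    ∃ f : MvPolynomial (Fin n) K, f.IsHomogeneous i ∧ L ^ j * f - g ∈ I)

/-- `K[x_1, …, x_n]/I` has the strong Lefschetz property: for some (equivalently, for a general)
linear form `L` all multiplication maps by powers of `L` have full rank. -/
def HasSLP {K : Type*} [Field K] (I : Ideal (MvPolynomial (Fin n) K)) : Prop :=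
  ∃ L : MvPolynomial (Fin n) K, L.IsHomogeneous 1 ∧ ∀ i j : ℕ, FullRank I L i j

end Defs

/-! ### The operator `U` -/

section U

variable {α : Type*} [DecidableEq α] {K : Type*} [Field K]

/-- The up operator. -/
def U (f : Finset α → K) (τ : Finset α) : K := ∑ v ∈ τ, f (τ.erase v)

lemma U_apply (f : Finset α → K) (τ : Finset α) : U f τ = ∑ v ∈ τ, f (τ.erase v) := rfl

lemma U_congr {f g : Finset α → K} {τ : Finset α} (h : ∀ v ∈ τ, f (τ.erase v) = g (τ.erase v)) :
    U f τ = U g τ := Finset.sum_congr rfl h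

/-- locality -/
lemma iter_congr (j : ℕ) {f g : Finset α → K} {τ : Finset α}
    (h : ∀ σ, σ ⊆ τ → σ.card + j = τ.card → f σ = g σ) : U^[j] f τ = U^[j] g τ := by
  induction j generalizing τ with
  | zero => exact h τ (Subset.refl _) (by simp)
  | succ j ih =>
    rw [Function.iterate_succ_apply', Function.iterate_succ_apply']
    refine U_congr fun v hv => ih fun σ hσ hc => ?_
    refine h σ (hσ.trans (erase_subset _ _)) ?_
    rw [card_erase_of_mem hv] at hc
    have : 0 < τ.card := card_pos.2 ⟨v, hv⟩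
    omega

lemma U_zero : U (0 : Finset α → K) = 0 := by
  ext τ
  simp [U]

lemma iter_zero (j : ℕ) : U^[j] (0 : Finset α → K) = 0 := by
  induction j with
  | zero => rfl
  | succ j ih => rw [Function.iterate_succ_apply', ih, U_zero]

lemma iter_eq_zero (j : ℕ) {f : Finset α → K} {τ : Finset α}
    (h : ∀ σ, σ ⊆ τ → σ.card + j = τ.card → f σ = 0) : U^[j] f τ = 0 := by
  have := iter_congr j (f := f) (g := 0) (τ := τ) h
  rw [this, iter_zero]
  rfl

lemma U_add (f g : Finset α → K) : U (f + g) = U f + U g := by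
  ext τ
  simp [U, Finset.sum_add_distrib]

lemma iter_add (j : ℕ) (f g : Finset α → K) : U^[j] (f + g) = U^[j] f + U^[j] g := by
  induction j with
  | zero => rfl
  | succ j ih => rw [Function.iterate_succ_apply', Function.iterate_succ_apply',
      Function.iterate_succ_apply', ih, U_add]

lemma iter_insert (m : ℕ) (f : Finset α → K) {v : α} {τ : Finset α} (hv : v ∉ τ) :
    U^[m] f (insert v τ) = U^[m] (fun σ => f (insert v σ)) τ + m * U^[m - 1] f τ := by
  induction m generalizing τ with
  | zero => simp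
  | succ m ih =>
    rw [Function.iterate_succ_apply', Function.iterate_succ_apply']
    have h1 : U (U^[m] f) (insert v τ) = U^[m] f τ + ∑ w ∈ τ, U^[m] f (insert v (τ.erase w)) := by
      rw [U_apply, Finset.sum_insert hv, Finset.erase_insert hv]
      congr 1
      refine Finset.sum_congr rfl fun w hw => ?_
      rw [Finset.erase_insert_of_ne (fun h : v = w => hv (h.symm ▸ hw))]
    have h2 : ∑ w ∈ τ, U^[m] f (insert v (τ.erase w)) =
        U (U^[m] (fun σ => f (insert v σ))) τ + m * U (U^[m - 1] f) τ := by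
      rw [U_apply, U_apply, Finset.mul_sum, ← Finset.sum_add_distrib]
      refine Finset.sum_congr rfl fun w hw => ?_
      rw [ih (fun h => hv (mem_of_mem_erase h))]
    rw [h1, h2]
    rcases m with _ | m
    · simp; ring
    · have h3 : U (U^[m + 1 - 1] f) = U^[m + 1] f := by
        rw [Function.iterate_succ_apply', Nat.add_sub_cancel]
      rw [h3, Nat.add_sub_cancel]
      push_cast
      ring

/-! ### Boolean lattices -/

variable [CharZero K]

theorem inj_boolean (F : Finset α) : ∀ (i j : ℕ), 2 * i + j ≤ F.card → ∀ f : Finset α → K,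
    (∀ τ ⊆ F, τ.card = i + j → U^[j] f τ = 0) → ∀ σ ⊆ F, σ.card = i → f σ = 0 := by
  induction F using Finset.induction_on with
  | empty =>
    intro i j hij f h σ hσ hc
    rw [card_empty] at hij
    obtain rfl : j = 0 := by omega
    exact h σ hσ (by simpa using hc)
  | insert v F hv ih =>
    intro i j hij f h σ hσ hc
    rw [card_insert_of_notMem hv] at hij
    rcases Nat.eq_zero_or_pos j with rfl | hj
    · exact h σ hσ (by simpa using hc)
    have hA : ∀ τ ⊆ F, τ.card = i + j → U^[j] f τ = 0 := fun τ hτ hc =>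
      h τ (hτ.trans (subset_insert _ _)) hc
    have hB : ∀ τ ⊆ F, τ.card + 1 = i + j →
        U^[j] (fun σ => f (insert v σ)) τ + j * U^[j - 1] f τ = 0 := by
      intro τ hτ hc
      have hvt : v ∉ τ := fun h => hv (hτ h)
      rw [← iter_insert j f hvt]
      exact h _ (insert_subset_insert v hτ) (by rw [card_insert_of_notMem hvt, hc])
    have hC : ∀ τ ⊆ F, τ.card = i + j → U^[j + 1] (fun σ => f (insert v σ)) τ = 0 := by
      intro τ hτ hc
      have h1 : ∑ w ∈ τ, (U^[j] (fun σ => f (insert v σ)) (τ.erase w) +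
          j * U^[j - 1] f (τ.erase w)) = 0 := by
        refine Finset.sum_eq_zero fun w hw => ?_
        refine hB _ ((erase_subset _ _).trans hτ) ?_
        rw [card_erase_of_mem hw]
        have : 0 < τ.card := card_pos.2 ⟨w, hw⟩
        omega
      rw [Finset.sum_add_distrib, ← Finset.mul_sum, ← U_apply, ← U_apply,
        ← Function.iterate_succ_apply' U, ← Function.iterate_succ_apply' U] at h1
      have h2 : j - 1 + 1 = j := by omega
      rw [Nat.succ_eq_add_one, Nat.succ_eq_add_one, h2, hA τ hτ hc, mul_zero, add_zero] at h1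
      exact h1
    have hD : ∀ σ ⊆ F, σ.card + 1 = i → f (insert v σ) = 0 := by
      intro σ hσ hc
      refine ih (i - 1) (j + 1) (by omega) (fun σ => f (insert v σ)) ?_ σ hσ (by omega)
      intro τ hτ hc'
      exact hC τ hτ (by omega)
    by_cases hvs : v ∈ σ
    · have h1 := hD (σ.erase v) ?_ ?_
      · rwa [insert_erase hvs] at h1
      · intro w hw
        rw [mem_erase] at hw
        exact (mem_insert.1 (hσ hw.2)).resolve_left hw.1
      · rw [card_erase_of_mem hvs]
        have : 0 < σ.card := card_pos.2 ⟨v, hvs⟩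
        omega
    · have hσF : σ ⊆ F := fun w hw => (mem_insert.1 (hσ hw)).resolve_left (fun h => hvs (h ▸ hw))
      refine ih i (j - 1) (by omega) f ?_ σ hσF hc
      intro τ hτ hc'
      have h1 := hB τ hτ (by omega)
      have h2 : U^[j] (fun σ => f (insert v σ)) τ = 0 := by
        refine iter_eq_zero j fun ρ hρ hc'' => ?_
        exact hD ρ (hρ.trans hτ) (by omega)
      rw [h2, zero_add] at h1
      have hj0 : (j : K) ≠ 0 := by exact_mod_cast hj.ne'
      exact (mul_eq_zero.1 h1).resolve_left hj0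

theorem surj_boolean (F : Finset α) : ∀ (i j : ℕ), F.card ≤ 2 * i + j → ∀ g : Finset α → K,
    ∃ f : Finset α → K, ∀ τ ⊆ F, τ.card = i + j → U^[j] f τ = g τ := by
  induction F using Finset.induction_on with
  | empty =>
    intro i j hij g
    rcases Nat.eq_zero_or_pos j with rfl | hj
    · exact ⟨g, fun τ _ _ => rfl⟩
    · refine ⟨0, fun τ hτ hc => ?_⟩
      have := card_le_card hτ
      rw [card_empty] at this
      omega
  | insert v F hv ih =>
    intro i j hij g
    rw [card_insert_of_notMem hv] at hij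
    rcases Nat.eq_zero_or_pos j with rfl | hj
    · exact ⟨g, fun τ _ _ => rfl⟩
    have hj0 : (j : K) ≠ 0 := by exact_mod_cast hj.ne'
    -- choose the part containing `v`
    obtain ⟨f1, hf1⟩ : ∃ f1 : Finset α → K, ∀ τ ⊆ F, τ.card = i + j →
        U^[j + 1] f1 τ = U (fun σ => g (insert v σ)) τ - j * g τ := by
      rcases Nat.eq_zero_or_pos i with rfl | hi
      · refine ⟨0, fun τ hτ hc => ?_⟩
        have := card_le_card hτ
        omega
      · obtain ⟨f1, hf1⟩ := ih (i - 1) (j + 1) (by omega)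
          (fun τ => U (fun σ => g (insert v σ)) τ - j * g τ)
        exact ⟨f1, fun τ hτ hc => hf1 τ hτ (by omega)⟩
    obtain ⟨f0, hf0⟩ := ih i (j - 1) (by omega)
      (fun τ => (j : K)⁻¹ * (g (insert v τ) - U^[j] f1 τ))
    refine ⟨fun σ => if v ∈ σ then f1 (σ.erase v) else f0 σ, ?_⟩
    intro τ hτ hc
    set f : Finset α → K := fun σ => if v ∈ σ then f1 (σ.erase v) else f0 σ with hf
    have hloc0 : ∀ (m : ℕ) (τ : Finset α), v ∉ τ → U^[m] f τ = U^[m] f0 τ := by
      intro m τ hvt
      refine iter_congr m fun σ hσ _ => ?_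
      rw [hf]
      exact if_neg (fun h => hvt (hσ h))
    have hloc1 : ∀ (m : ℕ) (τ : Finset α), v ∉ τ →
        U^[m] (fun σ => f (insert v σ)) τ = U^[m] f1 τ := by
      intro m τ hvt
      refine iter_congr m fun σ hσ _ => ?_
      have hvs : v ∉ σ := fun h => hvt (hσ h)
      simp [hf, hvs]
    have hf0' : ∀ τ ⊆ F, τ.card + 1 = i + j →
        (j : K) * U^[j - 1] f0 τ = g (insert v τ) - U^[j] f1 τ := by
      intro τ hτ hc
      rw [hf0 τ hτ (by omega), ← mul_assoc, mul_inv_cancel₀ hj0, one_mul]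
    by_cases hvt : v ∈ τ
    · have hv' : v ∉ τ.erase v := notMem_erase v τ
      have hsub : τ.erase v ⊆ F := by
        intro w hw
        rw [mem_erase] at hw
        exact (mem_insert.1 (hτ hw.2)).resolve_left hw.1
      have hcard : (τ.erase v).card + 1 = i + j := by
        rw [card_erase_of_mem hvt]
        have : 0 < τ.card := card_pos.2 ⟨v, hvt⟩
        omega
      have h1 := iter_insert j f hv'
      rw [insert_erase hvt] at h1
      rw [h1, hloc1 j _ hv', hloc0 (j - 1) _ hv', hf0' _ hsub hcard, insert_erase hvt]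
      ring
    · have hτF : τ ⊆ F := fun w hw => (mem_insert.1 (hτ hw)).resolve_left (fun h => hvt (h ▸ hw))
      rw [hloc0 j τ hvt]
      have h1 : (j : K) * U^[j] f0 τ = j * g τ := by
        have h2 : (j : K) * U^[j] f0 τ = ∑ w ∈ τ, (j : K) * U^[j - 1] f0 (τ.erase w) := by
          rw [← Finset.mul_sum, ← U_apply, ← Function.iterate_succ_apply' U, Nat.succ_eq_add_one,
            Nat.sub_add_cancel hj]
        rw [h2]
        have h3 : ∑ w ∈ τ, (j : K) * U^[j - 1] f0 (τ.erase w) =
            ∑ w ∈ τ, (g (insert v (τ.erase w)) - U^[j] f1 (τ.erase w)) := by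
          refine Finset.sum_congr rfl fun w hw => ?_
          refine hf0' _ ((erase_subset _ _).trans hτF) ?_
          rw [card_erase_of_mem hw]
          have : 0 < τ.card := card_pos.2 ⟨w, hw⟩
          omega
        rw [h3, Finset.sum_sub_distrib]
        have h4 := hf1 τ hτF hc
        rw [Function.iterate_succ_apply', U_apply, U_apply] at h4
        rw [h4]
        ring
      exact mul_left_cancel₀ hj0 h1

/-! ### Families of sets -/

omit [CharZero K]

variable (K) in
/-- injectivity on a family of sets -/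
def InjOn' (G : Set (Finset α)) (i j : ℕ) : Prop := ∀ f : Finset α → K, (∀ σ ∉ G, f σ = 0) →
  (∀ τ ∈ G, τ.card = i + j → U^[j] f τ = 0) → ∀ σ ∈ G, σ.card = i → f σ = 0

variable (K) in
/-- surjectivity on a family of sets -/
def SurjOn' (G : Set (Finset α)) (i j : ℕ) : Prop := ∀ g : Finset α → K, ∃ f : Finset α → K,
  (∀ σ ∉ G, f σ = 0) ∧ ∀ τ ∈ G, τ.card = i + j → U^[j] f τ = g τ

lemma inj_union {G1 G2 : Set (Finset α)} (h : ∀ σ ∈ G2, ∀ τ ∈ G1, ¬ σ ⊆ τ) {i j : ℕ}
    (h1 : InjOn' K G1 i j) (h2 : InjOn' K G2 i j) : InjOn' K (G1 ∪ G2) i j := by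
  classical
  intro f hf hz
  have hG1 : ∀ σ ∈ G1, σ.card = i → f σ = 0 := by
    intro σ hσ hc
    have h3 := h1 (fun σ => if σ ∈ G1 then f σ else 0) (fun σ hσ => if_neg hσ) ?_ σ hσ hc
    · rwa [if_pos hσ] at h3
    · intro τ hτ hc
      refine (iter_congr j (g := f) fun ρ hρ _ => ?_).trans (hz τ (Or.inl hτ) hc)
      split_ifs with h4
      · rfl
      · refine (hf ρ ?_).symm
        rintro (h5 | h5)
        · exact h4 h5
        · exact h ρ h5 τ hτ hρ
  intro σ hσ hc
  rcases hσ with hσ | hσ
  · exact hG1 σ hσ hc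
  · have h3 := h2 (fun σ => if σ ∈ G2 then f σ else 0) (fun σ hσ => if_neg hσ) ?_ σ hσ hc
    · rwa [if_pos hσ] at h3
    · intro τ hτ hc
      refine (iter_congr j (g := f) fun ρ hρ hρc => ?_).trans (hz τ (Or.inr hτ) hc)
      split_ifs with h4
      · rfl
      · by_cases h5 : ρ ∈ G1
        · exact (hG1 ρ h5 (by omega)).symm
        · refine (hf ρ ?_).symm
          rintro (h6 | h6)
          · exact h5 h6
          · exact h4 h6

lemma surj_union {G1 G2 : Set (Finset α)} (h : ∀ σ ∈ G2, ∀ τ ∈ G1, ¬ σ ⊆ τ) {i j : ℕ}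
    (h1 : SurjOn' K G1 i j) (h2 : SurjOn' K G2 i j) : SurjOn' K (G1 ∪ G2) i j := by
  intro g
  obtain ⟨f1, hf1, hg1⟩ := h1 g
  obtain ⟨f2, hf2, hg2⟩ := h2 (fun τ => g τ - U^[j] f1 τ)
  refine ⟨f1 + f2, ?_, ?_⟩
  · intro σ hσ
    rw [Pi.add_apply, hf1 σ (fun h => hσ (Or.inl h)), hf2 σ (fun h => hσ (Or.inr h)), add_zero]
  · intro τ hτ hc
    rw [iter_add, Pi.add_apply]
    rcases hτ with hτ | hτ
    · have h3 : U^[j] f2 τ = 0 := iter_eq_zero j fun σ hσ _ => hf2 σ fun h4 => h σ h4 τ hτ hσ
      rw [h3, add_zero, hg1 τ hτ hc]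
    · rw [hg2 τ hτ hc]
      ring

variable [CharZero K]

lemma inj_powerset (F : Finset α) {i j : ℕ} (h : 2 * i + j ≤ F.card) :
    InjOn' K {σ | σ ⊆ F} i j := by
  intro f _ hz σ hσ hc
  exact inj_boolean F i j h f (fun τ hτ hc => hz τ hτ hc) σ hσ hc

lemma surj_powerset (F : Finset α) {i j : ℕ} (h : F.card ≤ 2 * i + j) :
    SurjOn' K {σ | σ ⊆ F} i j := by
  classical
  intro g
  obtain ⟨f, hf⟩ := surj_boolean F i j h g
  refine ⟨fun σ => if σ ⊆ F then f σ else 0, fun σ hσ => if_neg hσ, ?_⟩
  intro τ hτ hc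
  rw [← hf τ hτ hc]
  exact iter_congr j fun σ hσ _ => if_pos (hσ.trans hτ)

lemma inj_interval {F G : Finset α} {i j : ℕ} (h : 2 * i + j ≤ F.card) :
    InjOn' K {σ | σ ⊆ F ∧ ¬ σ ⊆ G} i j := by
  intro f hf hz σ hσ hc
  refine inj_boolean F i j h f ?_ σ hσ.1 hc
  intro τ hτ hc
  by_cases hG : τ ⊆ G
  · exact iter_eq_zero j fun ρ hρ _ => hf ρ fun h4 => h4.2 (hρ.trans hG)
  · exact hz τ ⟨hτ, hG⟩ hc

lemma surj_star {F : Finset α} {v : α} (hv : v ∈ F) {i j : ℕ} (h : F.card + 1 ≤ 2 * i + j) :
    SurjOn' K {σ | σ ⊆ F ∧ v ∈ σ} i j := by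
  classical
  intro g
  rcases Nat.eq_zero_or_pos i with rfl | hi
  · refine ⟨0, fun _ _ => rfl, fun τ hτ hc => ?_⟩
    have := card_le_card hτ.1
    omega
  · have hcard : (F.erase v).card + 1 = F.card := card_erase_add_one hv
    obtain ⟨f, hf⟩ := surj_boolean (F.erase v) (i - 1) j (by omega)
      (fun τ => g (insert v τ))
    refine ⟨fun σ => if σ ⊆ F ∧ v ∈ σ then f (σ.erase v) else 0, fun σ hσ => if_neg hσ, ?_⟩
    intro τ hτ hc
    have hvt : v ∈ τ := hτ.2
    have hv' : v ∉ τ.erase v := notMem_erase v τ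
    have hc2 : (τ.erase v).card + 1 = τ.card := card_erase_add_one hvt
    have hsub : τ.erase v ⊆ F.erase v := erase_subset_erase v hτ.1
    have h1 := iter_insert j (fun σ => if σ ⊆ F ∧ v ∈ σ then f (σ.erase v) else 0) hv'
    rw [insert_erase hvt] at h1
    rw [h1]
    have h2 : U^[j - 1] (fun σ => if σ ⊆ F ∧ v ∈ σ then f (σ.erase v) else 0) (τ.erase v) = 0 :=
      iter_eq_zero _ fun σ hσ _ => if_neg fun h3 => hv' (hσ h3.2)
    have h3 : U^[j] (fun σ => (fun σ => if σ ⊆ F ∧ v ∈ σ then f (σ.erase v) else 0) (insert v σ))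
        (τ.erase v) = U^[j] f (τ.erase v) := by
      refine iter_congr j fun σ hσ _ => ?_
      have h4 : v ∉ σ := fun h => hv' (hσ h)
      have h5 : insert v σ ⊆ F := insert_subset hv ((hσ.trans hsub).trans (erase_subset _ _))
      simp [h5, h4]
    rw [h2, h3, mul_zero, add_zero, hf _ hsub (by omega), insert_erase hvt]

lemma surj_interval {G : Finset α} : ∀ (m : ℕ) (F : Finset α), (F \ G).card = m → ∀ {i j : ℕ},
    F.card + 1 ≤ 2 * i + j → SurjOn' K {σ | σ ⊆ F ∧ ¬ σ ⊆ G} i j := by
  intro m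
  induction m with
  | zero =>
    intro F hF i j _ g
    refine ⟨0, fun _ _ => rfl, fun τ hτ _ => ?_⟩
    rw [card_eq_zero, sdiff_eq_empty_iff_subset] at hF
    exact absurd (hτ.1.trans hF) hτ.2
  | succ m ih =>
    intro F hF i j hij
    obtain ⟨v, hv⟩ : (F \ G).Nonempty := card_pos.1 (by omega)
    have hvF : v ∈ F := (mem_sdiff.1 hv).1
    have hvG : v ∉ G := (mem_sdiff.1 hv).2
    have hcard : (F.erase v).card + 1 = F.card := card_erase_add_one hvF
    have h1 : ((F.erase v) \ G).card = m := by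
      rw [erase_sdiff_comm, card_erase_of_mem hv, hF]
      rfl
    have h2 := ih (F.erase v) h1 (i := i) (j := j) (by omega)
    have h3 := surj_star (K := K) hvF hij
    have h4 : {σ | σ ⊆ F ∧ ¬ σ ⊆ G} =
        {σ | σ ⊆ F.erase v ∧ ¬ σ ⊆ G} ∪ {σ | σ ⊆ F ∧ v ∈ σ} := by
      ext σ
      constructor
      · rintro ⟨h5, h6⟩
        by_cases h7 : v ∈ σ
        · exact Or.inr ⟨h5, h7⟩
        · exact Or.inl ⟨fun w hw => mem_erase.2 ⟨fun h => h7 (h ▸ hw), h5 hw⟩, h6⟩
      · rintro (⟨h5, h6⟩ | ⟨h5, h6⟩)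
        · exact ⟨h5.trans (erase_subset _ _), h6⟩
        · exact ⟨h5, fun h => hvG (h h6)⟩
    rw [h4]
    refine surj_union ?_ h2 h3
    intro σ hσ τ hτ hst
    exact notMem_erase v F (hτ.1 (hst hσ.2))

end U

/-! ### Forests -/

section Forest

variable {n : ℕ} {K : Type*} [Field K] [CharZero K]

omit [CharZero K] in
/-- every nonempty set of facets of a forest has a facet that meets the others in one face -/
lemma exists_last {Fs : Finset (Finset (Fin n))} (hFs : IsForest Fs) {Ss : Finset (Finset (Fin n))}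
    (hS : Ss ⊆ Fs) (hne : Ss.Nonempty) :
    ∃ F ∈ Ss, Ss = {F} ∨ ∃ G ∈ Ss, G ≠ F ∧ ∀ F' ∈ Ss, F' ≠ F → F ∩ F' ⊆ F ∩ G := by
  classical
  obtain ⟨F0, hF0⟩ := hne
  have hT := hFs F0 (hS hF0)
  obtain ⟨F, hF, hleaf⟩ := hT.2 (Ss.filter fun G => Joined Fs F0 G)
    (by
      intro G hG
      rw [mem_filter] at hG
      rw [component, mem_filter]
      exact ⟨hS hG.1, hG.2⟩)
    ⟨F0, mem_filter.2 ⟨hF0, Relation.ReflTransGen.refl⟩⟩
  rw [mem_filter] at hF
  have hdisj : ∀ F' ∈ Ss, ¬ Joined Fs F0 F' → F ∩ F' = ∅ := by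
    intro F' hF' hnj
    by_contra hne
    apply hnj
    exact hF.2.tail ⟨hS hF.1, hS hF', nonempty_iff_ne_empty.2 hne⟩
  refine ⟨F, hF.1, ?_⟩
  rcases hleaf with h1 | ⟨G, hG, hGF, h1⟩
  · by_cases h2 : Ss = {F}
    · exact Or.inl h2
    · right
      obtain ⟨G, hG, hGF⟩ : ∃ G ∈ Ss, G ≠ F := by
        by_contra hcon
        push Not at hcon
        exact h2 (eq_singleton_iff_unique_mem.2 ⟨hF.1, hcon⟩)
      refine ⟨G, hG, hGF, fun F' hF' hne => ?_⟩
      have h3 : ¬ Joined Fs F0 F' := by
        intro h4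
        have h5 : F' ∈ Ss.filter fun G => Joined Fs F0 G := mem_filter.2 ⟨hF', h4⟩
        rw [h1, mem_singleton] at h5
        exact hne h5
      rw [hdisj F' hF' h3]
      exact empty_subset _
  · right
    rw [mem_filter] at hG
    refine ⟨G, hG.1, hGF, fun F' hF' hne => ?_⟩
    by_cases h3 : Joined Fs F0 F'
    · exact h1 F' (mem_filter.2 ⟨hF', h3⟩) hne
    · rw [hdisj F' hF' h3]
      exact empty_subset _

/-- The two halves of the strong Lefschetz property for the faces of a pure forest. -/
theorem forest_main {Fs : Finset (Finset (Fin n))} (hFs : IsForest Fs) {d : ℕ}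
    (hd : ∀ F ∈ Fs, F.card = d) : ∀ (m : ℕ) (Ss : Finset (Finset (Fin n))), Ss.card = m → Ss ⊆ Fs →
    ∀ i j : ℕ, (2 * i + j ≤ d → InjOn' K {σ | IsFace Ss σ} i j) ∧
      (d + 1 ≤ 2 * i + j → SurjOn' K {σ | IsFace Ss σ} i j) := by
  classical
  intro m
  induction m with
  | zero =>
    intro Ss hS _ i j
    rw [card_eq_zero] at hS
    subst hS
    refine ⟨fun _ f _ _ σ hσ => ?_, fun _ g => ⟨0, fun _ _ => rfl, fun τ hτ => ?_⟩⟩
    · obtain ⟨F, hF, _⟩ := hσ
      exact absurd hF (notMem_empty F)
    · obtain ⟨F, hF, _⟩ := hτ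
      exact absurd hF (notMem_empty F)
  | succ m ih =>
    intro Ss hSc hS i j
    obtain ⟨F, hF, hlast⟩ := exists_last hFs hS (card_pos.1 (by omega))
    have hFd := hd F (hS hF)
    rcases hlast with h1 | ⟨G, hG, hGF, h1⟩
    · have h2 : {σ | IsFace Ss σ} = {σ | σ ⊆ F} := by
        ext σ
        constructor
        · rintro ⟨F', hF', h⟩
          rw [h1, mem_singleton] at hF'
          exact hF' ▸ h
        · intro h
          exact ⟨F, hF, h⟩
      rw [h2]
      exact ⟨fun h => inj_powerset F (by omega), fun h => surj_powerset F (by omega)⟩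
    · have h2 : {σ | IsFace Ss σ} =
          {σ | IsFace (Ss.erase F) σ} ∪ {σ | σ ⊆ F ∧ ¬ σ ⊆ F ∩ G} := by
        ext σ
        constructor
        · rintro ⟨F', hF', h⟩
          by_cases h3 : F' = F
          · subst h3
            by_cases h4 : σ ⊆ F' ∩ G
            · exact Or.inl ⟨G, mem_erase.2 ⟨hGF, hG⟩, h4.trans inter_subset_right⟩
            · exact Or.inr ⟨h, h4⟩
          · exact Or.inl ⟨F', mem_erase.2 ⟨h3, hF'⟩, h⟩
        · rintro (⟨F', hF', h⟩ | ⟨h3, h4⟩)
          · exact ⟨F', mem_of_mem_erase hF', h⟩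
          · exact ⟨F, hF, h3⟩
      have h3 := ih (Ss.erase F) (by rw [card_erase_of_mem hF]; omega)
        ((erase_subset _ _).trans hS) i j
      have h4 : ∀ σ ∈ {σ | σ ⊆ F ∧ ¬ σ ⊆ F ∩ G}, ∀ τ ∈ {σ | IsFace (Ss.erase F) σ}, ¬ σ ⊆ τ := by
        rintro σ ⟨h5, h6⟩ τ ⟨F', hF', h7⟩ h8
        apply h6
        exact (subset_inter h5 (h8.trans h7)).trans
          (h1 F' (mem_of_mem_erase hF') (ne_of_mem_erase hF'))
      rw [h2]
      refine ⟨fun h => inj_union h4 (h3.1 h) (inj_interval (by omega)),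
        fun h => surj_union h4 (h3.2 h) (surj_interval _ F rfl (by omega))⟩

end Forest

/-! ### The algebra -/

section Algebra

variable {n : ℕ} {K : Type*} [Field K]

/-- the exponent of the squarefree monomial of `σ` -/
noncomputable def ind (σ : Finset (Fin n)) : Fin n →₀ ℕ :=
  Finsupp.equivFunOnFinite.symm (fun v => if v ∈ σ then 1 else 0)

lemma ind_apply (σ : Finset (Fin n)) (v : Fin n) : ind σ v = if v ∈ σ then 1 else 0 := rfl

lemma degree_ind (σ : Finset (Fin n)) : (ind σ).degree = σ.card := by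
  rw [Finsupp.degree_eq_sum]
  simp [ind_apply]

lemma prod_X (σ : Finset (Fin n)) :
    ∏ v ∈ σ, (X v : MvPolynomial (Fin n) K) = monomial (ind σ) 1 := by
  rw [monomial_eq, map_one, one_mul, Finsupp.prod_fintype _ _ (fun i => pow_zero _)]
  rw [← Finset.prod_subset (Finset.subset_univ σ)]
  · exact Finset.prod_congr rfl fun v hv => by rw [ind_apply, if_pos hv, pow_one]
  · intro v _ hv
    rw [ind_apply, if_neg hv, pow_zero]

/-- squarefree coefficients -/
noncomputable def ev (f : MvPolynomial (Fin n) K) (σ : Finset (Fin n)) : K := f.coeff (ind σ)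

lemma ev_mul (f : MvPolynomial (Fin n) K) : ev ((∑ v, X v) * f) = U (ev f) := by
  ext τ
  rw [ev, Finset.sum_mul, coeff_sum, U_apply]
  rw [← Finset.sum_subset (Finset.subset_univ τ)]
  · refine Finset.sum_congr rfl fun v hv => ?_
    rw [coeff_X_mul', if_pos (by rw [Finsupp.mem_support_iff, ind_apply, if_pos hv]; exact one_ne_zero)]
    rw [ev]
    congr 1
    ext w
    rw [Finsupp.coe_tsub, Pi.sub_apply, ind_apply, ind_apply, Finsupp.single_apply]
    by_cases hw : v = w
    · subst hw
      simp [hv]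
    · have : w ≠ v := fun h => hw h.symm
      simp [hw, this, Finset.mem_erase]
  · intro v _ hv
    rw [coeff_X_mul', if_neg]
    rw [Finsupp.mem_support_iff, ind_apply, if_neg hv]
    exact fun h => h rfl

lemma ev_pow_mul (j : ℕ) (f : MvPolynomial (Fin n) K) : ev ((∑ v, X v) ^ j * f) = U^[j] (ev f) := by
  induction j with
  | zero => simp
  | succ j ih =>
    rw [pow_succ', mul_assoc, ev_mul, ih, Function.iterate_succ_apply']

lemma mem_theIdeal (Fs : Finset (Finset (Fin n))) (f : MvPolynomial (Fin n) K) :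
    f ∈ theIdeal K Fs ↔ ∀ σ, IsFace Fs σ → ev f σ = 0 := by
  constructor
  · intro hf σ hσ
    have hgen : ∀ (c : Fin n →₀ ℕ) (h : MvPolynomial (Fin n) K), ¬ c ≤ ind σ →
        (h * monomial c 1).coeff (ind σ) = 0 := by
      intro c h hc
      rw [coeff_mul_monomial', if_neg hc]
    refine Submodule.span_induction (p := fun f _ => ∀ h, (h * f).coeff (ind σ) = 0) ?_ ?_ ?_ ?_ hf 1
      |> fun h => by rwa [one_mul] at h
    · rintro _ (⟨ρ, hρ, rfl⟩ | ⟨v, rfl⟩) h
      · rw [prod_X]
        refine hgen _ _ fun hle => hρ ?_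
        obtain ⟨F, hF, hσF⟩ := hσ
        refine ⟨F, hF, fun v hv => hσF ?_⟩
        have h1 := hle v
        rw [ind_apply, ind_apply, if_pos hv] at h1
        by_contra h2
        rw [if_neg h2] at h1
        omega
      · rw [X_pow_eq_monomial]
        refine hgen _ _ fun hle => ?_
        have h1 := hle v
        rw [Finsupp.single_eq_same, ind_apply] at h1
        split_ifs at h1 <;> omega
    · intro h
      rw [mul_zero, coeff_zero]
    · intro x y _ _ hx hy h
      rw [mul_add, coeff_add, hx, hy, add_zero]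
    · intro a x _ hx h
      rw [smul_eq_mul, ← mul_assoc, hx]
  · intro h
    rw [f.as_sum]
    refine Ideal.sum_mem _ fun a ha => ?_
    by_cases hsq : ∃ v, 2 ≤ a v
    · obtain ⟨v, hv⟩ := hsq
      have h1 : monomial a (f.coeff a) =
          monomial (a - Finsupp.single v 2) (f.coeff a) * (X v ^ 2 : MvPolynomial (Fin n) K) := by
        rw [X_pow_eq_monomial, monomial_mul, mul_one, tsub_add_cancel_of_le]
        rw [Finsupp.single_le_iff]
        exact hv
      rw [h1]
      exact Ideal.mul_mem_left _ _ (Ideal.subset_span (Or.inr ⟨v, rfl⟩))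
    · push Not at hsq
      have h1 : a = ind a.support := by
        ext v
        rw [ind_apply]
        have h2 := hsq v
        by_cases h3 : v ∈ a.support
        · rw [if_pos h3]
          rw [Finsupp.mem_support_iff] at h3
          omega
        · rw [if_neg h3]
          rwa [Finsupp.notMem_support_iff] at h3
      have h2 : ¬ IsFace Fs a.support := by
        intro h3
        have h4 := h _ h3
        rw [ev, ← h1] at h4
        exact (mem_support_iff.1 ha) h4
      have h3 : monomial a (f.coeff a) = C (f.coeff a) * ∏ v ∈ a.support, (X v) := by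
        rw [prod_X, C_mul_monomial, mul_one, ← h1]
      rw [h3]
      exact Ideal.mul_mem_left _ _ (Ideal.subset_span (Or.inl ⟨_, h2, rfl⟩))

lemma ev_homogeneous {f : MvPolynomial (Fin n) K} {i : ℕ} (hf : f.IsHomogeneous i)
    {σ : Finset (Fin n)} (h : σ.card ≠ i) : ev f σ = 0 := by
  rw [ev]
  by_contra h1
  exact h ((degree_ind σ).symm.trans (by rw [← hf h1]; simp [Finsupp.weight_apply, Finsupp.degree_eq_sum, Finsupp.sum_fintype]))

variable [CharZero K]

theorem fullRank_of_forest {Fs : Finset (Finset (Fin n))} (hpure : IsPure Fs) (hFs : IsForest Fs)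
    (i j : ℕ) : FullRank (theIdeal K Fs) (∑ v, X v) i j := by
  classical
  obtain ⟨d, hd⟩ : ∃ d, ∀ F ∈ Fs, F.card = d := by
    rcases Fs.eq_empty_or_nonempty with h | ⟨F, hF⟩
    · exact ⟨0, fun F hF => absurd (h ▸ hF) (notMem_empty F)⟩
    · exact ⟨F.card, fun G hG => hpure G hG F hF⟩
  have hmain := forest_main (K := K) hFs hd _ Fs rfl (Subset.refl _) i j
  rcases Nat.lt_or_ge d (2 * i + j) with hij | hij
  · right
    intro g hg
    obtain ⟨f, hf, hfg⟩ := hmain.2 hij (ev g)
    refine ⟨∑ σ : Finset (Fin n), if σ.card = i then monomial (ind σ) (f σ) else 0, ?_, ?_⟩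
    · refine IsHomogeneous.sum _ _ _ fun σ _ => ?_
      split_ifs with h
      · refine isHomogeneous_monomial _ ?_
        rw [degree_ind, h]
      · exact isHomogeneous_zero _ _ _
    · rw [mem_theIdeal]
      intro τ hτ
      have hsub : ev ((∑ v, X v) ^ j * (∑ σ : Finset (Fin n),
          if σ.card = i then monomial (ind σ) (f σ) else 0) - g) τ =
          U^[j] (ev (∑ σ : Finset (Fin n), if σ.card = i then monomial (ind σ) (f σ) else 0)) τ -
            ev g τ := by
        rw [← ev_pow_mul, ev, ev, ev, coeff_sub]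
      have hev : ∀ ρ : Finset (Fin n), ρ.card = i →
          ev (∑ σ : Finset (Fin n), if σ.card = i then monomial (ind σ) (f σ) else 0) ρ = f ρ := by
        intro ρ hρ
        rw [ev, coeff_sum, Finset.sum_eq_single ρ]
        · rw [if_pos hρ, coeff_monomial, if_pos rfl]
        · intro σ _ hne
          split_ifs
          · rw [coeff_monomial, if_neg]
            intro h
            apply hne
            ext v
            have h1 := DFunLike.congr_fun h v
            rw [ind_apply, ind_apply] at h1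
            by_cases h2 : v ∈ σ <;> by_cases h3 : v ∈ ρ <;> simp_all
          · rfl
        · intro h
          exact absurd (Finset.mem_univ _) h
      have hhom : (∑ σ : Finset (Fin n), if σ.card = i then monomial (ind σ) (f σ) else 0).IsHomogeneous i := by
        refine IsHomogeneous.sum _ _ _ fun σ _ => ?_
        split_ifs with h
        · refine isHomogeneous_monomial _ ?_
          rw [degree_ind, h]
        · exact isHomogeneous_zero _ _ _
      rw [hsub]
      by_cases hc : τ.card = i + j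
      · rw [sub_eq_zero, ← hfg τ hτ hc]
        exact iter_congr j fun ρ _ hρ => hev ρ (by omega)
      · rw [ev_homogeneous hg hc, sub_zero]
        refine iter_eq_zero j fun ρ _ hρ => ev_homogeneous hhom (by omega)
  · left
    intro f hf hL
    rw [mem_theIdeal] at hL ⊢
    intro σ hσ
    by_cases hc : σ.card = i
    · have h1 := hmain.1 hij (fun σ => if IsFace Fs σ then ev f σ else 0) (fun σ hσ => if_neg hσ)
        ?_ σ hσ hc
      · rwa [if_pos hσ] at h1
      · intro τ hτ hc
        have h2 := hL τ hτ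
        rw [ev_pow_mul] at h2
        refine (iter_congr j (g := ev f) fun ρ hρ _ => if_pos ?_).trans h2
        obtain ⟨F, hF, h3⟩ := hτ
        exact ⟨F, hF, hρ.trans h3⟩
    · exact ev_homogeneous hf hc

end Algebra

/-- **Pure simplicial forests have the strong Lefschetz property in characteristic zero**, with
Lefschetz element `x_1 + … + x_n`. -/
theorem result (K : Type*) [Field K] [CharZero K] (n : ℕ) (Fs : Finset (Finset (Fin n)))
    (_ : IsFacetSet Fs) (hpure : IsPure Fs) (hforest : IsForest Fs) :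
    HasSLP (theIdeal K Fs) ∧ ∀ i j : ℕ, FullRank (theIdeal K Fs) (∑ v, X v) i j := by
  have h := fun i j => fullRank_of_forest (K := K) hpure hforest i j
  exact ⟨⟨∑ v, X v, IsHomogeneous.sum _ _ _ fun v _ => isHomogeneous_X K v, h⟩, h⟩

end Pool.Agent.Results.MP_cb4cd2_al.PureForests
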